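import Pool.Agent.Complexity.RTM
import Pool.Agent.SMP.Defs

/-!
# NP via Mathlib's polynomial-time `TM2` verifiers, and a criterion through real-time machines
-/

set_option backward.isDefEq.respectTransparency false
set_option linter.unusedSectionVars false

namespace Pool.Agent.RTM

open Turing Computability
open Pool.Agent.SMP (InNP)

namespace Mach

variable {A G : Type}

/-- product of two machines with the same stack alphabet; accepts iff both accept -/
def prod (M₁ M₂ : Mach A G) : Mach A G where
  K := M₁.K ⊕ M₂.K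
  Q := M₁.Q × M₂.Q
  q0 := (M₁.q0, M₂.q0)
  δ q a t :=
    (((M₁.δ q.1 a (fun k => t (Sum.inl k))).1, (M₂.δ q.2 a (fun k => t (Sum.inr k))).1),
      fun k => match k with
        | Sum.inl k => (M₁.δ q.1 a (fun k => t (Sum.inl k))).2 k
        | Sum.inr k => (M₂.δ q.2 a (fun k => t (Sum.inr k))).2 k)
  acc q := M₁.acc q.1 && M₂.acc q.2

theorem prod_runFrom (M₁ M₂ : Mach A G) (w : List A) : ∀ (c : (M₁.prod M₂).Conf),
    (((M₁.prod M₂).runFrom c w).1 =
      ((M₁.runFrom (c.1.1, fun k => c.2 (Sum.inl k)) w).1,
       (M₂.runFrom (c.1.2, fun k => c.2 (Sum.inr k)) w).1)) := by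
  induction w with
  | nil => intro c; rfl
  | cons a w ih =>
    intro c
    rw [runFrom_cons, ih]
    rfl

theorem prod_accepts (M₁ M₂ : Mach A G) (w : List A) :
    (M₁.prod M₂).accepts w = (M₁.accepts w && M₂.accepts w) := by
  have h := prod_runFrom M₁ M₂ w (M₁.prod M₂).init
  unfold accepts
  rw [h]
  rfl

/-- A machine reading pairs of certificate bits, turned into one reading single bits. -/
def unpair {Γ : Type} (M : Mach (Γ ⊕ Bool × Bool) G) : Mach (Γ ⊕ Bool) G where
  K := M.K
  Q := M.Q × Option Bool
  q0 := (M.q0, none)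
  δ q a t :=
    match a, q.2 with
    | Sum.inl a, buf => (((M.δ q.1 (Sum.inl a) t).1, buf), (M.δ q.1 (Sum.inl a) t).2)
    | Sum.inr b, none => ((q.1, some b), fun _ => Act.keep)
    | Sum.inr b, some b₀ => (((M.δ q.1 (Sum.inr (b₀, b)) t).1, none),
        (M.δ q.1 (Sum.inr (b₀, b)) t).2)
  acc q := M.acc q.1

/-- group bits in pairs, dropping a possible last single bit -/
def pairs : List Bool → List (Bool × Bool)
  | a :: b :: l => (a, b) :: pairs l
  | _ => []

theorem two_mul_length_pairs_le : ∀ l : List Bool, 2 * (pairs l).length ≤ l.length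
  | [] => by simp [pairs]
  | [_] => by simp [pairs]
  | _ :: _ :: l => by
    have := two_mul_length_pairs_le l
    simp only [pairs, List.length_cons]
    omega

/-- list of bits of a list of pairs -/
def unpairs : List (Bool × Bool) → List Bool
  | [] => []
  | (a, b) :: l => a :: b :: unpairs l

theorem pairs_unpairs : ∀ l, pairs (unpairs l) = l
  | [] => rfl
  | (a, b) :: l => by rw [unpairs, pairs, pairs_unpairs l]

theorem length_unpairs : ∀ l, (unpairs l).length = 2 * l.length
  | [] => rfl
  | (a, b) :: l => by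
    rw [unpairs]
    simp only [List.length_cons, length_unpairs l]
    omega

theorem unpair_runFrom_inl {Γ : Type} (M : Mach (Γ ⊕ Bool × Bool) G) (x : List Γ) :
    ∀ (q : M.Q) (S : M.K → List G),
    M.unpair.runFrom ((q, none), S) (x.map Sum.inl) =
      (((M.runFrom (q, S) (x.map Sum.inl)).1, none), (M.runFrom (q, S) (x.map Sum.inl)).2) := by
  induction x with
  | nil => intro q S; rfl
  | cons a x ih =>
    intro q S
    rw [List.map_cons, runFrom_cons, List.map_cons, runFrom_cons]
    exact ih _ _

theorem unpair_runFrom_inr {Γ : Type} (M : Mach (Γ ⊕ Bool × Bool) G) : ∀ (w : List Bool)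
    (q : M.Q) (S : M.K → List G),
    (M.unpair.runFrom ((q, none), S) (w.map Sum.inr)).1.1 =
      (M.runFrom (q, S) ((pairs w).map Sum.inr)).1
  | [], q, S => rfl
  | [b], q, S => rfl
  | b₀ :: b :: w, q, S => by
    have hstep : M.unpair.step (M.unpair.step ((q, none), S) (Sum.inr b₀)) (Sum.inr b) =
        (((M.step (q, S) (Sum.inr (b₀, b))).1, none), (M.step (q, S) (Sum.inr (b₀, b))).2) := by
      rfl
    rw [List.map_cons, List.map_cons, runFrom_cons, runFrom_cons, hstep,
      unpair_runFrom_inr M w]
    rfl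

theorem unpair_accepts {Γ : Type} (M : Mach (Γ ⊕ Bool × Bool) G) (x : List Γ) (w : List Bool) :
    M.unpair.accepts (x.map Sum.inl ++ w.map Sum.inr) =
      M.accepts (x.map Sum.inl ++ (pairs w).map Sum.inr) := by
  unfold accepts
  rw [runFrom_append, runFrom_append]
  have h1 : M.unpair.runFrom M.unpair.init (x.map Sum.inl) =
      (((M.runFrom M.init (x.map Sum.inl)).1, none), (M.runFrom M.init (x.map Sum.inl)).2) :=
    unpair_runFrom_inl M x M.q0 (fun _ => [])
  rw [h1]
  exact congrArg M.acc (unpair_runFrom_inr M w _ _)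

end Mach

/-- Criterion for NP: nondeterministic real-time multi-stack machines with polynomially long
certificates. -/
theorem inNP_of_mach {Γ G : Type} [Fintype Γ] [Fintype G] [Inhabited G] (L : Set (List Γ))
    (M : Mach (Γ ⊕ Bool × Bool) G) (p : Polynomial ℕ)
    (hs : ∀ x, ∀ c : List (Bool × Bool), M.accepts (x.map Sum.inl ++ c.map Sum.inr) = true → x ∈ L)
    (hc : ∀ x ∈ L, ∃ c : List (Bool × Bool), c.length ≤ p.eval x.length ∧
      M.accepts (x.map Sum.inl ++ c.map Sum.inr) = true) : InNP L := by
  refine ⟨2 * p, fun xw => M.unpair.accepts (xw.1.map Sum.inl ++ xw.2.map Sum.inr), ?_, ?_⟩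
  · exact M.unpair.polyTime _ _ (fun x => rfl)
  · intro x
    constructor
    · intro hx
      obtain ⟨c, hcl, hacc⟩ := hc x hx
      refine ⟨Mach.unpairs c, ?_, ?_⟩
      · rw [Mach.length_unpairs]
        simpa using hcl
      · simp only
        rw [Mach.unpair_accepts, Mach.pairs_unpairs]
        exact hacc
    · rintro ⟨w, -, hw⟩
      simp only at hw
      rw [Mach.unpair_accepts] at hw
      exact hs x _ hw

end Pool.Agent.RTM
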