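import Mathlib

/-!
# Real-time multi-stack machines and their simulation by Mathlib's `FinTM2`

A real-time machine reads its input word letter by letter; at every letter it sees the tops of its
finitely many stacks and, depending on its (finite) control state, changes state and performs on
each stack one of: keep, pop, push one symbol.  We show that the Boolean function computed by such
a machine is computable in linear (hence polynomial) time in the sense of Mathlib's
`Turing.TM2ComputableInPolyTime`.
-/

set_option backward.isDefEq.respectTransparency false
set_option linter.unusedSectionVars false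
set_option linter.unusedSimpArgs false

namespace Pool.Agent.RTM

open Turing Computability StateTransition

/-- stack actions -/
inductive Act (G : Type) : Type
  | keep : Act G
  | pop : Act G
  | push (g : G) : Act G

namespace Act

variable {G : Type}

/-- effect of an action on a stack -/
def app : Act G → List G → List G
  | keep, l => l
  | pop, l => l.tail
  | push g, l => g :: l

@[simp] theorem app_keep (l : List G) : (keep : Act G).app l = l := rfl
@[simp] theorem app_pop (l : List G) : (pop : Act G).app l = l.tail := rfl
@[simp] theorem app_push (g : G) (l : List G) : (push g : Act G).app l = g :: l := rfl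

/-- is it a pop? -/
def isPop : Act G → Bool
  | pop => true
  | _ => false

/-- is it a push? -/
def isPush : Act G → Bool
  | push _ => true
  | _ => false

/-- pushed symbol -/
def sym [Inhabited G] : Act G → G
  | push g => g
  | _ => default

theorem length_app_le (a : Act G) (l : List G) : (a.app l).length ≤ l.length + 1 := by
  cases a <;> simp
  omega

end Act

/-- A real-time multi-stack machine over the input alphabet `A` and stack alphabet `G`. -/
structure Mach (A G : Type) where
  /-- stack names -/
  K : Type
  /-- finitely many stacks -/
  [decK : DecidableEq K]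
  [finK : Fintype K]
  /-- control states -/
  Q : Type
  [finQ : Fintype Q]
  /-- initial state -/
  q0 : Q
  /-- transition function -/
  δ : Q → A → (K → Option G) → Q × (K → Act G)
  /-- accepting states -/
  acc : Q → Bool

attribute [instance] Mach.decK Mach.finK Mach.finQ

namespace Mach

variable {A G : Type} (M : Mach A G)

/-- configurations -/
abbrev Conf : Type := M.Q × (M.K → List G)

/-- one step -/
def step (c : M.Conf) (a : A) : M.Conf :=
  ((M.δ c.1 a (fun k => (c.2 k).head?)).1,
    fun k => ((M.δ c.1 a (fun k => (c.2 k).head?)).2 k).app (c.2 k))

/-- initial configuration -/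
def init : M.Conf := (M.q0, fun _ => [])

/-- run from a configuration -/
def runFrom (c : M.Conf) (w : List A) : M.Conf := w.foldl M.step c

/-- acceptance -/
def accepts (w : List A) : Bool := M.acc (M.runFrom M.init w).1

theorem runFrom_cons (c : M.Conf) (a : A) (w : List A) :
    M.runFrom c (a :: w) = M.runFrom (M.step c a) w := rfl

@[simp] theorem runFrom_nil (c : M.Conf) : M.runFrom c [] = c := rfl

theorem runFrom_append (c : M.Conf) (v w : List A) :
    M.runFrom c (v ++ w) = M.runFrom (M.runFrom c v) w := List.foldl_append

theorem length_runFrom (w : List A) : ∀ (c : M.Conf) (n : ℕ), (∀ k, (c.2 k).length ≤ n) →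
    ∀ k, ((M.runFrom c w).2 k).length ≤ n + w.length := by
  induction w with
  | nil => intro c n h k; simpa using h k
  | cons a w ih =>
    intro c n h k
    rw [runFrom_cons]
    have := ih (M.step c a) (n + 1) (fun k => by
      refine (Act.length_app_le _ _).trans ?_
      have := h k
      omega) k
    simp only [List.length_cons]
    omega

/-! ### The simulating `FinTM2` -/

/-- stack alphabets of the simulating machine: `none` is the input stack, `some none` the output
stack, `some (some k)` the work stacks. -/
def Γ' : Option (Option M.K) → Type
  | none => A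
  | some none => Bool
  | some (some _) => G

/-- internal memory of the simulating machine -/
abbrev σ' : Type := M.Q × Option A × (M.K → Option G)

variable [Fintype A] [Fintype G] [Inhabited G]

/-- statements of the simulating machine -/
abbrev St : Type := TM2.Stmt M.Γ' Bool M.σ'

/-- look at all the stacks in the list -/
def peeks : List M.K → M.St → M.St
  | [], q => q
  | k :: ks, q => TM2.Stmt.peek (some (some k))
      (fun s x => (s.1, s.2.1, Function.update s.2.2 k x)) (peeks ks q)

/-- pop all the stacks in the list -/
def pops : List M.K → M.St → M.St
  | [], q => q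
  | k :: ks, q => TM2.Stmt.pop (some (some k))
      (fun s x => (s.1, s.2.1, Function.update s.2.2 k x)) (pops ks q)

/-- the action recorded in the internal memory -/
def actOf (s : M.σ') (k : M.K) : Act G :=
  match s.2.1 with
  | some a => (M.δ s.1 a s.2.2).2 k
  | none => Act.keep

/-- perform the actions on all stacks in the list -/
def acts : List M.K → M.St → M.St
  | [], q => q
  | k :: ks, q =>
    TM2.Stmt.branch (fun s => (M.actOf s k).isPop)
      (TM2.Stmt.pop (some (some k)) (fun s _ => s) (acts ks q))
      (TM2.Stmt.branch (fun s => (M.actOf s k).isPush)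
        (TM2.Stmt.push (some (some k)) (fun s => (M.actOf s k).sym) (acts ks q))
        (acts ks q))

/-- new internal memory after a step -/
def nxt (s : M.σ') : M.σ' :=
  match s.2.1 with
  | some a => ((M.δ s.1 a s.2.2).1, none, fun _ => none)
  | none => s

/-- all stacks -/
noncomputable def allK : List M.K := Finset.univ.toList

theorem mem_allK (k : M.K) : k ∈ M.allK := by simp [allK]

theorem nodup_allK : M.allK.Nodup := Finset.nodup_toList _

open Classical in
/-- the program -/
noncomputable def prog : Bool → M.St
  | true => TM2.Stmt.pop none (fun s x => (s.1, x, s.2.2))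
      (TM2.Stmt.branch (fun s => s.2.1.isSome)
        (M.peeks M.allK (M.acts M.allK (TM2.Stmt.load M.nxt (TM2.Stmt.goto fun _ => true))))
        (TM2.Stmt.goto fun _ => false))
  | false => M.pops M.allK
      (TM2.Stmt.branch (fun s => decide (∀ k, s.2.2 k = none))
        (TM2.Stmt.push (some none) (fun s => M.acc s.1)
          (TM2.Stmt.load (fun _ => (M.q0, none, fun _ => none)) TM2.Stmt.halt))
        (TM2.Stmt.goto fun _ => false))

/-- stacks of the simulating machine -/
def stk (w : List A) (S : M.K → List G) : ∀ k, List (M.Γ' k)
  | none => w
  | some none => []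
  | some (some k) => S k

/-- final stacks of the simulating machine -/
def ostk (b : List Bool) : ∀ k, List (M.Γ' k)
  | none => []
  | some none => b
  | some (some _) => []

theorem stepAux_peeks (ks : List M.K) (q : M.St) (s : M.σ') (S : ∀ k, List (M.Γ' k)) :
    TM2.stepAux (M.peeks ks q) s S = TM2.stepAux q
      (s.1, s.2.1, fun k => if k ∈ ks then (S (some (some k))).head? else s.2.2 k) S := by
  induction ks generalizing s with
  | nil => simp [peeks]
  | cons k ks ih =>
    rw [peeks, TM2.stepAux, ih]
    congr 2
    congr 1
    funext k'
    by_cases hk : k' ∈ ks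
    · simp [hk]
    · by_cases hkk : k' = k
      · subst hkk; simp [hk]
      · simp [hk, hkk, Function.update_of_ne hkk]

theorem stepAux_pops (ks : List M.K) (hks : ks.Nodup) (q : M.St) (s : M.σ')
    (w : List A) (S : M.K → List G) :
    TM2.stepAux (M.pops ks q) s (M.stk w S) = TM2.stepAux q
      (s.1, s.2.1, fun k => if k ∈ ks then (S k).head? else s.2.2 k)
      (M.stk w (fun k => if k ∈ ks then (S k).tail else S k)) := by
  induction ks generalizing s S with
  | nil => simp [pops]
  | cons k ks ih =>
    have hk : k ∉ ks := (List.nodup_cons.1 hks).1
    have hupd : Function.update (M.stk w S) (some (some k)) ((M.stk w S (some (some k))).tail) =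
        M.stk w (Function.update S k (S k).tail) := by
      funext k'
      rcases k' with _ | _ | k'
      · simp [stk]
      · simp [stk]
      · by_cases hkk : k' = k
        · subst hkk; simp [stk]
        · rw [Function.update_of_ne (by simpa using hkk)]
          simp [stk, Function.update_of_ne hkk]
    rw [pops, TM2.stepAux, hupd, ih (List.nodup_cons.1 hks).2]
    congr 1
    · congr 2
      funext k'
      by_cases hkk : k' = k
      · subst hkk; simp [hk, stk]
      · simp [hkk, Function.update_of_ne hkk]
    · congr 1
      funext k'
      by_cases hkk : k' = k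
      · subst hkk; simp [hk]
      · simp [hkk, Function.update_of_ne hkk]

theorem stepAux_acts (ks : List M.K) (hks : ks.Nodup) (q : M.St) (s : M.σ')
    (w : List A) (S : M.K → List G) :
    TM2.stepAux (M.acts ks q) s (M.stk w S) = TM2.stepAux q s
      (M.stk w (fun k => if k ∈ ks then (M.actOf s k).app (S k) else S k)) := by
  induction ks generalizing S with
  | nil => simp [acts]
  | cons k ks ih =>
    have hk : k ∉ ks := (List.nodup_cons.1 hks).1
    have hupd : ∀ v : List G, Function.update (M.stk w S) (some (some k)) v =
        M.stk w (Function.update S k v) := by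
      intro v
      funext k'
      rcases k' with _ | _ | k'
      · simp [stk]
      · simp [stk]
      · by_cases hkk : k' = k
        · subst hkk; simp [stk]
        · rw [Function.update_of_ne (by simpa using hkk)]
          simp [stk, Function.update_of_ne hkk]
    have hgoal : ∀ v : List G, v = (M.actOf s k).app (S k) →
        TM2.stepAux (M.acts ks q) s (M.stk w (Function.update S k v)) = TM2.stepAux q s
        (M.stk w (fun k' => if k' ∈ k :: ks then (M.actOf s k').app (S k') else S k')) := by
      intro v hv
      rw [ih (List.nodup_cons.1 hks).2]
      congr 2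
      funext k'
      by_cases hkk : k' = k
      · subst hkk; simp [hk, hv]
      · simp [hkk, Function.update_of_ne hkk]
    rw [acts, TM2.stepAux]
    cases hact : M.actOf s k with
    | keep =>
      simp only [Act.isPop, cond_false, TM2.stepAux, Act.isPush, hact]
      have := hgoal (S k) (by rw [hact]; rfl)
      rwa [Function.update_eq_self] at this
    | pop =>
      simp only [Act.isPop, cond_true, TM2.stepAux]
      have h1 := hupd ((M.stk w S (some (some k))).tail)
      have := hgoal (S k).tail (by rw [hact]; rfl)
      erw [h1]
      exact this
    | push g =>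
      simp only [Act.isPop, cond_false, TM2.stepAux, Act.isPush, cond_true, hact, Act.sym]
      have h1 := hupd (g :: (M.stk w S (some (some k))))
      have := hgoal (g :: S k) (by rw [hact]; rfl)
      erw [h1]
      exact this

theorem step_main_cons (a : A) (w : List A) (q : M.Q) (S : M.K → List G) :
    TM2.step M.prog ⟨some true, (q, none, fun _ => none), M.stk (a :: w) S⟩ =
      some ⟨some true, ((M.step (q, S) a).1, none, fun _ => none),
        M.stk w (M.step (q, S) a).2⟩ := by
  have hupd : Function.update (M.stk (a :: w) S) none ((M.stk (a :: w) S none).tail) =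
      M.stk w S := by
    funext k'
    rcases k' with _ | _ | k' <;> simp [stk]
  rw [TM2.step, prog, TM2.stepAux, hupd, TM2.stepAux]
  have hh : (M.stk (a :: w) S none).head? = some a := rfl
  rw [hh]
  simp only [Option.isSome_some, cond_true]
  rw [stepAux_peeks, stepAux_acts _ _ M.nodup_allK]
  simp only [mem_allK, if_true, TM2.stepAux, nxt, actOf, stk]
  rfl

theorem step_main_nil (q : M.Q) (S : M.K → List G) :
    TM2.step M.prog ⟨some true, (q, none, fun _ => none), M.stk [] S⟩ =
      some ⟨some false, (q, none, fun _ => none), M.stk [] S⟩ := by
  have hupd : Function.update (M.stk [] S) none ((M.stk [] S none).tail) =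
      M.stk [] S := by
    funext k'
    rcases k' with _ | _ | k' <;> simp [stk]
  rw [TM2.step, prog, TM2.stepAux, hupd, TM2.stepAux]
  have hh : (M.stk [] S none).head? = none := rfl
  rw [hh]
  simp only [Option.isSome_none, cond_false, TM2.stepAux]

/-- iterating the transition function of the simulating machine -/
noncomputable def it (n : ℕ) (c : Option (TM2.Cfg M.Γ' Bool M.σ')) :
    Option (TM2.Cfg M.Γ' Bool M.σ') :=
  (flip bind (TM2.step M.prog))^[n] c

theorem it_succ (n : ℕ) (c : TM2.Cfg M.Γ' Bool M.σ') :
    M.it (n + 1) (some c) = M.it n (TM2.step M.prog c) := by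
  unfold it
  rw [Function.iterate_succ_apply]
  rfl

theorem it_main (w : List A) : ∀ (q : M.Q) (S : M.K → List G),
    M.it w.length (some ⟨some true, (q, none, fun _ => none), M.stk w S⟩) =
      some ⟨some true, ((M.runFrom (q, S) w).1, none, fun _ => none),
        M.stk [] (M.runFrom (q, S) w).2⟩ := by
  induction w with
  | nil => intro q S; rfl
  | cons a w ih =>
    intro q S
    rw [List.length_cons, it_succ, step_main_cons, ih]
    rfl

theorem it_clean (n : ℕ) : ∀ (q : M.Q) (t : M.K → Option G) (S : M.K → List G),
    (∀ k, (S k).length ≤ n) → ∃ m ≤ n + 1,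
    M.it m (some ⟨some false, (q, none, t), M.stk [] S⟩) =
      some ⟨none, (M.q0, none, fun _ => none), M.ostk [M.acc q]⟩ := by
  have base : ∀ (q : M.Q) (t : M.K → Option G) (S : M.K → List G), (∀ k, S k = []) →
      M.it 1 (some ⟨some false, (q, none, t), M.stk [] S⟩) =
      some ⟨none, (M.q0, none, fun _ => none), M.ostk [M.acc q]⟩ := by
    intro q t S hS
    rw [it_succ, TM2.step, prog, stepAux_pops _ _ M.nodup_allK]
    simp only [mem_allK, if_true, TM2.stepAux, hS, List.head?_nil, implies_true, decide_true,
      cond_true]
    change some _ = some _
    congr 2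
    funext k'
    rcases k' with _ | _ | k' <;> simp [stk, ostk]
  induction n with
  | zero =>
    intro q t S hS
    refine ⟨1, le_rfl, base q t S fun k => ?_⟩
    exact List.length_eq_zero_iff.1 (Nat.le_zero.1 (hS k))
  | succ n ih =>
    intro q t S hS
    by_cases hall : ∀ k, S k = []
    · exact ⟨1, by omega, base q t S hall⟩
    · obtain ⟨m, hm, hit⟩ := ih q (fun k => (S k).head?) (fun k => (S k).tail) (by
        intro k
        rw [List.length_tail]
        have := hS k
        omega)
      refine ⟨m + 1, by omega, ?_⟩
      rw [it_succ, TM2.step, prog, stepAux_pops _ _ M.nodup_allK]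
      have hne : ¬ ∀ k, (S k).head? = none := by
        intro h
        apply hall
        intro k
        exact List.head?_eq_none_iff.1 (h k)
      simp only [mem_allK, if_true, TM2.stepAux, hne, decide_false, cond_false]
      exact hit

/-- the simulating machine -/
noncomputable def toTM2 : FinTM2 where
  K := Option (Option M.K)
  k₀ := none
  k₁ := some none
  Γ := M.Γ'
  Λ := Bool
  main := true
  σ := M.σ'
  initialState := (M.q0, none, fun _ => none)
  Γk₀Fin := inferInstanceAs (Fintype A)
  m := M.prog

theorem initList_eq (w : List A) : initList M.toTM2 w =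
    (⟨some true, (M.q0, none, fun _ => none), M.stk w (fun _ => [])⟩ :
      TM2.Cfg M.Γ' Bool M.σ') := by
  unfold initList
  congr 1
  funext k'
  rcases k' with _ | _ | k'
  · simp [toTM2, stk]
  · simp [toTM2, stk]
  · simp [toTM2, stk]

theorem haltList_eq (w : List Bool) : haltList M.toTM2 w =
    (⟨none, (M.q0, none, fun _ => none), M.ostk w⟩ :
      TM2.Cfg M.Γ' Bool M.σ') := by
  unfold haltList
  congr 1
  funext k'
  rcases k' with _ | _ | k'
  · simp [toTM2, ostk]
  · simp [toTM2, ostk]
  · simp [toTM2, ostk]

theorem exists_steps (w : List A) : ∃ n ≤ 2 * w.length + 2,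
    (flip bind M.toTM2.step)^[n] (some (initList M.toTM2 w)) =
      some (haltList M.toTM2 [M.accepts w]) := by
  rw [initList_eq, haltList_eq]
  have hlen : ∀ k, ((M.runFrom M.init w).2 k).length ≤ w.length := by
    intro k
    have := M.length_runFrom w M.init 0 (fun k => by simp [init]) k
    simpa using this
  obtain ⟨m, hm, hit⟩ := M.it_clean w.length (M.runFrom M.init w).1 (fun _ => none)
    (M.runFrom M.init w).2 hlen
  refine ⟨m + 1 + w.length, by omega, ?_⟩
  have h1 := M.it_main w M.q0 (fun _ => [])
  change M.it (m + 1 + w.length) _ = _
  have h2 : ∀ a b (c : Option (TM2.Cfg M.Γ' Bool M.σ')), M.it (a + b) c = M.it a (M.it b c) :=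
    fun a b c => Function.iterate_add_apply _ _ _ _
  rw [h2, h1, it_succ, step_main_nil]
  exact hit

/-- **A Boolean function decided by a real-time multi-stack machine is polynomial-time
computable.** -/
theorem polyTime {α : Type} (ea : α → List A) (f : α → Bool)
    (hf : ∀ x, f x = M.accepts (ea x)) :
    Nonempty (TM2ComputableInPolyTime ea encodeBool f) := by
  choose n hn hsteps using M.exists_steps
  exact ⟨{
    tm := M.toTM2
    inputAlphabet := Equiv.refl _
    outputAlphabet := Equiv.refl _
    time := 2 * Polynomial.X + 2
    outputsFun := fun x => by
      refine ⟨⟨n (ea x), ?_⟩, ?_⟩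
      · have h := hsteps (ea x)
        have e1 : List.map (Equiv.refl (M.toTM2.Γ M.toTM2.k₀)).invFun (ea x) = ea x := by
          simp
        have e2 : List.map (Equiv.refl (M.toTM2.Γ M.toTM2.k₁)).invFun (encodeBool (f x)) =
            [M.accepts (ea x)] := by
          rw [hf x]
          simp [encodeBool]
        rw [e2]
        erw [e1]
        exact h
      · simpa using hn (ea x) }⟩

end Mach

end Pool.Agent.RTM
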